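import Pool.Agent.W500.CS.Stm

set_option autoImplicit false

/-! CQ-MONO: the index of the right derivative of a locally semiconvex function is monotone. -/

namespace Pool.Agent.W196.CQ

open Pool.Agent.W500.CS Set Filter Topology

theorem conv_mono {a' b' C : ℝ} {v : ℝ → ℝ} (hf : ConvexOn ℝ (Ioo a' b') (fun y => v y + C * y ^ 2))
    {x y p q : ℝ} (hx : x ∈ Ioo a' b') (hy : y ∈ Ioo a' b') (hxy : x ≤ y)
    (hp : HasDerivWithinAt v p (Ioi x) x) (hq : HasDerivWithinAt v q (Ioi y) y) :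
    p + 2 * C * x ≤ q + 2 * C * y := by
  have key : ∀ z w : ℝ, HasDerivWithinAt v w (Ioi z) z →
      derivWithin (fun y => v y + C * y ^ 2) (Ioi z) z = w + 2 * C * z := by
    intro z w hw
    have h1 : HasDerivAt (fun y : ℝ => C * y ^ 2) (2 * C * z) z := by
      have h2 := (hasDerivAt_pow 2 z).const_mul C
      have h3 : 2 * C * z = C * (((2 : ℕ) : ℝ) * z ^ (2 - 1)) := by
        norm_num; ring
      rw [h3]
      exact h2
    exact (hw.add h1.hasDerivWithinAt).derivWithin (uniqueDiffWithinAt_Ioi z)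
  have hm := hf.monotoneOn_rightDeriv
  have hint : interior (Ioo a' b') = Ioo a' b' := isOpen_Ioo.interior_eq
  rw [hint] at hm
  have h3 := hm hx hy hxy
  simp only at h3
  rw [key x p hp, key y q hq] at h3
  exact h3

theorem sep_transfer {r : ℕ} {a b : ℝ} {ψ : Fin r → ℝ → ℝ} (hS : Sep a b ψ) {i j : Fin r}
    {x y : ℝ} (hx : x ∈ Ioo a b) (hy : y ∈ Ioo a b) (h : ψ i x ≤ ψ j x) : ψ i y ≤ ψ j y := by
  rcases hS i j with h1 | h1 | h1
  · exact (h1 y hy).le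
  · exact (h1 y hy).le
  · exact absurd (h1 x hx) (not_lt.2 h)

theorem loc_right {r : ℕ} {a b : ℝ} {v : ℝ → ℝ} {ψ : Fin r → ℝ → ℝ} (hv : SC1 a b v)
    (hc : ∀ i, ContinuousOn (ψ i) (Ioo a b)) (hS : Sep a b ψ) {t₀ : ℝ} (ht₀ : t₀ ∈ Ioo a b)
    {i : Fin r} (hi : HasDerivWithinAt v (ψ i t₀) (Ioi t₀) t₀) :
    ∀ᶠ t in 𝓝[>] t₀, ∀ k, HasDerivWithinAt v (ψ k t) (Ioi t) t → ψ i t ≤ ψ k t := by
  obtain ⟨ε, hε, C, hconv⟩ := hv t₀ ht₀
  have hev1 : ∀ᶠ t in 𝓝[>] t₀, t ∈ Ioo a b :=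
    nhdsWithin_le_nhds (isOpen_Ioo.mem_nhds ht₀)
  have hev2 : ∀ᶠ t in 𝓝[>] t₀, t ∈ Ioo (t₀ - ε) (t₀ + ε) :=
    nhdsWithin_le_nhds (isOpen_Ioo.mem_nhds ⟨by linarith, by linarith⟩)
  have hev3 : ∀ᶠ t in 𝓝[>] t₀, t₀ < t := self_mem_nhdsWithin
  rw [eventually_all]
  intro k
  rcases hS i k with h1 | h1 | h1
  · filter_upwards [hev1] with t ht _
    exact (h1 t ht).le
  · filter_upwards [hev1] with t ht _
    exact (h1 t ht).le
  · have hg : ContinuousAt (fun t => ψ k t + 2 * C * t - (ψ i t₀ + 2 * C * t₀)) t₀ := by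
      have h2 : ContinuousAt (ψ k) t₀ := (hc k).continuousAt (isOpen_Ioo.mem_nhds ht₀)
      have h3 : ContinuousAt (fun t : ℝ => 2 * C * t - (ψ i t₀ + 2 * C * t₀)) t₀ := by fun_prop
      have h4 := h2.add h3
      refine h4.congr (Eventually.of_forall fun t => ?_)
      simp only [Pi.add_apply]
      ring
    have hneg : (fun t => ψ k t + 2 * C * t - (ψ i t₀ + 2 * C * t₀)) t₀ < 0 := by
      have := h1 t₀ ht₀
      simp only
      linarith
    have hev4 : ∀ᶠ t in 𝓝[>] t₀, ψ k t + 2 * C * t - (ψ i t₀ + 2 * C * t₀) < 0 :=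
      nhdsWithin_le_nhds (hg.eventually (gt_mem_nhds hneg))
    filter_upwards [hev2, hev3, hev4] with t h2 h3 h4 hk
    exfalso
    have := conv_mono hconv (x := t₀) (y := t) ⟨by linarith, by linarith⟩ h2 h3.le hi hk
    linarith

theorem loc_left {r : ℕ} {a b : ℝ} {v : ℝ → ℝ} {ψ : Fin r → ℝ → ℝ} (hv : SC1 a b v)
    (hc : ∀ i, ContinuousOn (ψ i) (Ioo a b)) (hS : Sep a b ψ) {t₀ : ℝ} (ht₀ : t₀ ∈ Ioo a b)
    {i : Fin r} (hi : HasDerivWithinAt v (ψ i t₀) (Ioi t₀) t₀) :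
    ∀ᶠ t in 𝓝[<] t₀, ∀ k, HasDerivWithinAt v (ψ k t) (Ioi t) t → ψ k t ≤ ψ i t := by
  obtain ⟨ε, hε, C, hconv⟩ := hv t₀ ht₀
  have hev1 : ∀ᶠ t in 𝓝[<] t₀, t ∈ Ioo a b :=
    nhdsWithin_le_nhds (isOpen_Ioo.mem_nhds ht₀)
  have hev2 : ∀ᶠ t in 𝓝[<] t₀, t ∈ Ioo (t₀ - ε) (t₀ + ε) :=
    nhdsWithin_le_nhds (isOpen_Ioo.mem_nhds ⟨by linarith, by linarith⟩)
  have hev3 : ∀ᶠ t in 𝓝[<] t₀, t < t₀ := self_mem_nhdsWithin
  rw [eventually_all]
  intro k
  rcases hS k i with h1 | h1 | h1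
  · filter_upwards [hev1] with t ht _
    exact (h1 t ht).le
  · filter_upwards [hev1] with t ht _
    exact (h1 t ht).le
  · have hg : ContinuousAt (fun t => ψ k t + 2 * C * t - (ψ i t₀ + 2 * C * t₀)) t₀ := by
      have h2 : ContinuousAt (ψ k) t₀ := (hc k).continuousAt (isOpen_Ioo.mem_nhds ht₀)
      have h3 : ContinuousAt (fun t : ℝ => 2 * C * t - (ψ i t₀ + 2 * C * t₀)) t₀ := by fun_prop
      have h4 := h2.add h3
      refine h4.congr (Eventually.of_forall fun t => ?_)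
      simp only [Pi.add_apply]
      ring
    have hpos : 0 < (fun t => ψ k t + 2 * C * t - (ψ i t₀ + 2 * C * t₀)) t₀ := by
      have := h1 t₀ ht₀
      simp only
      linarith
    have hev4 : ∀ᶠ t in 𝓝[<] t₀, 0 < ψ k t + 2 * C * t - (ψ i t₀ + 2 * C * t₀) :=
      nhdsWithin_le_nhds (hg.eventually (lt_mem_nhds hpos))
    filter_upwards [hev2, hev3, hev4] with t h2 h3 h4 hk
    exfalso
    have := conv_mono hconv (x := t) (y := t₀) h2 ⟨by linarith, by linarith⟩ h3.le hk hi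
    linarith

theorem main : S_MONO := by
  intro r a b v ψ hv hc hS hD s t has hst htb i j hi hj
  rcases eq_or_lt_of_le hst with rfl | hst'
  · exact ((uniqueDiffWithinAt_Ioi s).eq_deriv _ hi hj).le
  have hsab : s ∈ Ioo a b := ⟨has, by linarith⟩
  have htab : t ∈ Ioo a b := ⟨by linarith, htb⟩
  set T : Set ℝ := {x | x ∈ Icc s t ∧ ∀ y ∈ Icc s x, ∀ k,
    HasDerivWithinAt v (ψ k y) (Ioi y) y → ψ i y ≤ ψ k y} with hT
  have hsT : s ∈ T := by
    refine ⟨⟨le_rfl, hst⟩, ?_⟩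
    intro y hy k hk
    have hys : y = s := le_antisymm hy.2 hy.1
    subst hys
    exact ((uniqueDiffWithinAt_Ioi y).eq_deriv _ hi hk).le
  have hbdd : BddAbove T := ⟨t, fun x hx => hx.1.2⟩
  set c := sSup T with hcdef
  have hsc : s ≤ c := le_csSup hbdd hsT
  have hct : c ≤ t := csSup_le ⟨s, hsT⟩ fun x hx => hx.1.2
  have hcab : c ∈ Ioo a b := ⟨by linarith, by linarith⟩
  have hbelow : ∀ y, s ≤ y → y < c → ∀ k,
      HasDerivWithinAt v (ψ k y) (Ioi y) y → ψ i y ≤ ψ k y := by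
    intro y hsy hyc k hk
    obtain ⟨x, hxT, hyx⟩ := exists_lt_of_lt_csSup ⟨s, hsT⟩ hyc
    exact hxT.2 y ⟨hsy, hyx.le⟩ k hk
  have hcT : c ∈ T := by
    refine ⟨⟨hsc, hct⟩, ?_⟩
    intro y hy k hk
    rcases eq_or_lt_of_le hy.2 with hyc | hyc
    · rw [hyc] at hk ⊢
      rcases eq_or_lt_of_le hsc with hsc' | hsc'
      · exact hsT.2 c ⟨hsc, hsc'.ge⟩ k hk
      · have hev := loc_left hv hc hS hcab hk
        have hev2 : ∀ᶠ z in 𝓝[<] c, z ∈ Ioo s c := Ioo_mem_nhdsLT hsc'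
        obtain ⟨z, hz1, hz2⟩ := (hev.and hev2).exists
        have hzab : z ∈ Ioo a b := ⟨by linarith [hz2.1], by linarith [hz2.2]⟩
        obtain ⟨k', hk'⟩ := hD z hzab
        have h1 := hbelow z hz2.1.le hz2.2 k' hk'
        have h2 := hz1 k' hk'
        exact sep_transfer hS hzab hcab (h1.trans h2)
    · exact hbelow y hy.1 hyc k hk
  rcases eq_or_lt_of_le hct with hct' | hct'
  · have h1 := hcT.2 t ⟨hst, hct'.ge⟩ j hj
    exact sep_transfer hS htab htab h1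
  · exfalso
    obtain ⟨k, hk⟩ := hD c hcab
    have h1 := hcT.2 c ⟨hsc, le_rfl⟩ k hk
    have hev := loc_right hv hc hS hcab hk
    have hev2 : ∀ᶠ z in 𝓝[>] c, z ∈ Ioo c t := Ioo_mem_nhdsGT hct'
    obtain ⟨u, hu, husub⟩ := (mem_nhdsGT_iff_exists_Ioc_subset).1 (hev.and hev2)
    have huc : c < u := hu
    have hu2 := husub ⟨huc, le_rfl⟩
    have hut : u < t := hu2.2.2
    have huT : u ∈ T := by
      refine ⟨⟨by linarith, hut.le⟩, ?_⟩
      intro y hy k' hk'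
      rcases lt_or_ge c y with hyc | hyc
      · have h3 := husub ⟨hyc, hy.2⟩
        have hyab : y ∈ Ioo a b := ⟨by linarith, by linarith [hy.2]⟩
        have h4 := h3.1 k' hk'
        exact (sep_transfer hS hcab hyab h1).trans h4
      · exact hcT.2 y ⟨hy.1, hyc⟩ k' hk'
    have := le_csSup hbdd huT
    linarith

end Pool.Agent.W196.CQ
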